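import Pool.Agent.H65.NV.PTargets

/-!
# Bounds for the local weights (row P_NWB)
-/

set_option autoImplicit false

open MeasureTheory Set Filter NumberField NumberField.InfinitePlace
open scoped Real

namespace Pool.Agent.H71.NVP_NWB

open Pool.Agent.H65.CM4 Pool.Agent.H61.NVK Pool.Agent.H89.NV Pool.Agent.H65.NV

variable (k : Type) [Field k] [NumberField k] [IsTotallyReal k]

variable {k} in
theorem nr_le (hRSF : T_RSF k) (f I A : Ideal (𝓞 k)) (b c : 𝓞 k) (hf : f ≠ ⊥) (hI : I ≠ ⊥)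
    (hA : A ≠ ⊥) : (Pool.Agent.H89.NV.nr f I A b c : ℝ) ≤ nm I := by
  classical
  obtain ⟨-, h1, -⟩ := hRSF I (A * f) hI (mul_ne_zero hA hf)
    ((Rs (I * (A * f))).filter (fun x => x ∈ A * f)) (fun x => Finset.mem_filter)
  rw [← h1]
  unfold Pool.Agent.H89.NV.nr
  have h2 : rts f I A b c ⊆ (Rs (I * (A * f))).filter (fun x => x ∈ A * f) := by
    intro x hx
    unfold rts at hx
    rw [Finset.mem_filter] at hx ⊢
    exact ⟨hx.1, hx.2.1⟩
  exact_mod_cast Finset.card_le_card h2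

theorem prod_bd {ι : Type} [DecidableEq ι] (m₁ m₂ : Finset ι) (g : ι → ℝ) (hg : ∀ i, 2 ≤ g i)
    (F : ι → ℝ) (h0 : ∀ i, 0 ≤ F i) (h1 : ∀ i, F i ≤ g i ^ 4) :
    0 ≤ ∏ i ∈ m₁ ∪ m₂, F i ∧
      ∏ i ∈ m₁ ∪ m₂, F i ≤ ((∏ i ∈ m₁, g i) * ∏ i ∈ m₂, g i) ^ 4 := by
  refine ⟨Finset.prod_nonneg fun i _ => h0 i, ?_⟩
  have h2 : ∏ i ∈ m₁ ∪ m₂, F i ≤ ∏ i ∈ m₁ ∪ m₂, g i ^ 4 :=
    Finset.prod_le_prod (fun i _ => h0 i) (fun i _ => h1 i)
  refine h2.trans ?_
  rw [Finset.prod_pow]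
  have h3 : 0 ≤ ∏ i ∈ m₁ ∪ m₂, g i := Finset.prod_nonneg fun i _ => by linarith [hg i]
  refine pow_le_pow_left₀ h3 ?_ 4
  rw [← Finset.prod_union_inter (s₁ := m₁) (s₂ := m₂) (f := g)]
  have h4 : 1 ≤ ∏ i ∈ m₁ ∩ m₂, g i := by
    have h5 : ∏ i ∈ m₁ ∩ m₂, (1 : ℝ) ≤ ∏ i ∈ m₁ ∩ m₂, g i :=
      Finset.prod_le_prod (fun i _ => zero_le_one) (fun i _ => by linarith [hg i])
    rwa [Finset.prod_const_one] at h5
  exact le_mul_of_one_le_right h3 h4

theorem pf_NWB (hRSF : T_RSF k) (hIDL : T_IDL k) (hEMS : T_EMS k) : T_NWB k := by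
  classical
  intro f m₁ m₂ e A b c hf hA
  obtain ⟨-, hdv, -, hmul, -, hnp, -⟩ := hIDL
  have hP2 : ∀ P : PrI k, nm (P.1 ^ 2) = np P ^ 2 := by
    intro P
    rw [sq, hmul]
    unfold np
    ring
  have key : ∀ x : ℝ, 2 ≤ x → 1 + x ≤ x ^ 4 ∧ 1 + x + x + x ^ 2 ≤ x ^ 4 ∧ 5 ≤ x ^ 4 := by
    intro x hx
    have h1 : 4 ≤ x ^ 2 := by nlinarith
    have h2 : x ^ 4 = x ^ 2 * x ^ 2 := by ring
    refine ⟨by nlinarith, by nlinarith, by nlinarith⟩
  have hN1 : ∀ P : PrI k, (N1 f P.1 e A b c : ℝ) ≤ np P ^ 4 := by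
    intro P
    have h1 := nr_le hRSF f P.1 A b c hf P.2.2 hA
    have h2 : (N1 f P.1 e A b c : ℝ) ≤ 1 + np P := by
      unfold N1
      push_cast
      refine add_le_add ?_ ?_
      · split_ifs <;> norm_num
      · split_ifs
        · exact h1
        · linarith [hnp P]
    exact h2.trans (key _ (hnp P)).1
  have hN2 : ∀ P : PrI k, (N2 f P.1 e A b c : ℝ) ≤ np P ^ 4 := by
    intro P
    have h1 := nr_le hRSF f P.1 A b c hf P.2.2 hA
    have h3 := nr_le hRSF f (P.1 ^ 2) A b c hf (pow_ne_zero 2 P.2.2) hA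
    rw [hP2] at h3
    have h0 := hnp P
    have h2 : (N2 f P.1 e A b c : ℝ) ≤ 1 + np P + np P + np P ^ 2 := by
      unfold N2
      push_cast
      refine add_le_add (add_le_add (add_le_add ?_ ?_) ?_) ?_
      · split_ifs <;> norm_num
      · split_ifs with h4
        · exact nr_le hRSF f P.1 (dvi A P.1) b c hf P.2.2 (hdv A P.1 hA h4.1).2.1
        · linarith
      · split_ifs
        · exact h1
        · linarith
      · split_ifs
        · exact h3
        · positivity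
    exact h2.trans (key _ (hnp P)).2.1
  refine ⟨?_, ?_⟩
  · have h1 := (prod_bd m₁ m₂ (fun P : PrI k => np P) hnp
      (fun P => ((if P ∈ m₁ ∧ P ∈ m₂ then N2 f P.1 e A b c else N1 f P.1 e A b c : ℕ) : ℝ))
      (fun P => Nat.cast_nonneg _) (fun P => by
        split_ifs
        · exact hN2 P
        · exact hN1 P)).2
    unfold Nw nS
    rw [Nat.cast_prod]
    exact h1
  · unfold Nb nS
    refine prod_bd m₁ m₂ (fun P : PrI k => np P) hnp _ (fun P => ?_) (fun P => ?_)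
    · have h0 := hnp P
      have h1 : 0 ≤ 2 - 1 / np P := by
        have : 1 / np P ≤ 1 := by
          rw [div_le_one (by linarith)]
          linarith
        linarith
      split_ifs <;> linarith
    · have h0 := hnp P
      have h1 := (key _ h0).2.2
      have h2 : 0 ≤ 1 / np P := by positivity
      split_ifs <;> linarith

end Pool.Agent.H71.NVP_NWB
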